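import Pool.Agent.Helper70.ML.St2

/-!
# Project ML, module AVG: averaging over a mixable subgroup
-/

set_option autoImplicit false

namespace Pool.Agent.Helper38.ML

open Pool.Agent.Helper70.ML Pool.Agent.Helper75.MX

theorem avg_lz {G : Type} [Group G] (K : Subgroup G) [Fintype K] (g : K) (p : ℝ) (φ : K → ℝ)
    (f : G → ℝ) :
    lz (g : G) p (∑ x : K, φ x • L (x : G) f) = ∑ x : K, (lz g p φ x) • L (x : G) f := by
  have h1 : L (g : G) (∑ x : K, φ x • L (x : G) f) = ∑ x : K, φ (g⁻¹ * x) • L (x : G) f := by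
    rw [L_sum]
    rw [← Equiv.sum_comp (Equiv.mulLeft g⁻¹) (fun x : K => L (g : G) (φ x • L (x : G) f))]
    apply Finset.sum_congr rfl
    intro x _
    rw [L_smul, ← Pool.Agent.Helper75.MX.L_mul]
    have e : (g : G) * ((Equiv.mulLeft g⁻¹ x : K) : G) = x := by
      simp
    rw [e]
    rfl
  unfold lz
  rw [h1, Finset.smul_sum, Finset.smul_sum, ← Finset.sum_add_distrib]
  apply Finset.sum_congr rfl
  intro x _
  rw [smul_smul, smul_smul, ← add_smul]
  rfl

theorem avg_app {G : Type} [Group G] (K : Subgroup G) [Fintype K] (l : List (K × ℝ))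
    (f : G → ℝ) :
    app (l.map (fun a => ((a.1 : G), a.2))) f = ∑ x : K, (app l (dlt K) x) • L (x : G) f := by
  classical
  induction l with
  | nil =>
    rw [List.map_nil, app_nil]
    rw [Finset.sum_eq_single (1 : K)]
    · rw [app_nil]
      have e : dlt K 1 = 1 := by simp [dlt]
      rw [e, one_smul]
      exact (L_one f).symm
    · intro x _ hx
      rw [app_nil]
      have e : dlt K x = 0 := by simp [dlt, hx]
      rw [e, zero_smul]
    · intro h
      exact absurd (Finset.mem_univ _) h
  | cons a l ih =>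
    rw [List.map_cons, app_cons, ih, avg_lz, app_cons]

theorem hAVG : StAVG := by
  intro G _ _ K k hk f
  have : Fintype K := Fintype.ofFinite K
  obtain ⟨l, hl, ho, he⟩ := hk
  refine ⟨l.map (fun a => ((a.1 : G), a.2)), by rw [List.length_map]; exact hl, ?_, ?_⟩
  · intro a ha
    rw [List.mem_map] at ha
    obtain ⟨b, hb, rfl⟩ := ha
    exact ho b hb
  · rw [avg_app, he, finsum_eq_sum_of_fintype, Finset.smul_sum]
    rfl

end Pool.Agent.Helper38.ML
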